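import Mathlib

/-!
A real-rooted polynomial with nonnegative coefficients has a log-concave coefficient sequence.
-/

open Polynomial

namespace Pool.Agent.helper62.SR

/-- `c i * c (j+1) ≤ c (i+1) * c j` for `i ≤ j` (log-concave without internal zeros) -/
def TP2 (c : ℕ → ℝ) : Prop := ∀ i j : ℕ, i ≤ j → c i * c (j + 1) ≤ c (i + 1) * c j

lemma tp2_shift (c : ℕ → ℝ) (hc : ∀ i, 0 ≤ c i) (h : TP2 c) (e : ℕ → ℝ) (h0 : e 0 = 0)
    (hs : ∀ n, e (n + 1) = c n) : TP2 e := by
  intro i j hij
  rcases i with _ | i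
  · rw [h0, zero_mul, zero_add]
    rcases j with _ | j
    · rw [h0, mul_zero]
    · rw [hs, hs]; exact mul_nonneg (hc _) (hc _)
  · rcases j with _ | j
    · omega
    · rw [hs, hs, hs, hs]; exact h i j (by omega)

lemma tp2_mul (e : ℕ → ℝ) (he : ∀ i, 0 ≤ e i) (h : TP2 e) (r : ℝ) (hr : 0 ≤ r) :
    TP2 (fun n => e n + r * e (n + 1)) := by
  intro i j hij
  have h1 := h i j hij
  have h2 := h (i + 1) (j + 1) (by omega)
  have h3 : e i * e (j + 2) ≤ e (i + 2) * e j := by
    have h4 := h i (j + 1) (by omega)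
    by_cases hz : e (i + 1) * e (j + 1) = 0
    · have h5 : e i * e (j + 1 + 1) ≤ 0 := by rw [← hz]; exact h4
      have h6 : 0 ≤ e (i + 2) * e j := mul_nonneg (he _) (he _)
      linarith
    · have hpos : 0 < e (i + 1) * e (j + 1) :=
        lt_of_le_of_ne (mul_nonneg (he _) (he _)) (Ne.symm hz)
      have h5 : (e i * e (j + 1)) * (e (i + 1) * e (j + 1 + 1))
          ≤ (e (i + 1) * e j) * (e (i + 1 + 1) * e (j + 1)) :=
        mul_le_mul h1 h2 (mul_nonneg (he _) (he _)) (mul_nonneg (he _) (he _))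
      have h6 : (e i * e (j + 2)) * (e (i + 1) * e (j + 1))
          ≤ (e (i + 2) * e j) * (e (i + 1) * e (j + 1)) := by
        have a1 : (e i * e (j + 2)) * (e (i + 1) * e (j + 1))
            = (e i * e (j + 1)) * (e (i + 1) * e (j + 1 + 1)) := by ring
        have a2 : (e (i + 2) * e j) * (e (i + 1) * e (j + 1))
            = (e (i + 1) * e j) * (e (i + 1 + 1) * e (j + 1)) := by ring
        rw [a1, a2]; exact h5
      exact le_of_mul_le_mul_right h6 hpos
  have h7 := mul_le_mul_of_nonneg_left h3 hr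
  have h8 := mul_le_mul_of_nonneg_left h2 (mul_nonneg hr hr)
  show (e i + r * e (i + 1)) * (e (j + 1) + r * e (j + 1 + 1))
    ≤ (e (i + 1) + r * e (i + 1 + 1)) * (e j + r * e (j + 1))
  nlinarith [h1, h7, h8]

lemma coeff_X_add_C_mul (q : ℝ[X]) (r : ℝ) (n : ℕ) :
    ((X + C r) * q).coeff n = (X * q).coeff n + r * (X * q).coeff (n + 1) := by
  rw [add_mul, coeff_add, coeff_C_mul, coeff_X_mul]

lemma tp2_prod (s : Multiset ℝ) (hs : ∀ r ∈ s, r ≤ 0) :
    (∀ i, 0 ≤ ((s.map (fun r => X - C r)).prod : ℝ[X]).coeff i) ∧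
      TP2 (fun i => ((s.map (fun r => X - C r)).prod : ℝ[X]).coeff i) := by
  induction s using Multiset.induction_on with
  | empty =>
    simp only [Multiset.map_zero, Multiset.prod_zero]
    refine ⟨fun i => ?_, fun i j _ => ?_⟩
    · rw [coeff_one]; split_ifs <;> norm_num
    · simp [coeff_one]
  | cons a s ih =>
    obtain ⟨ih1, ih2⟩ := ih (fun r hr => hs r (Multiset.mem_cons_of_mem hr))
    have ha : 0 ≤ -a := by
      have := hs a (Multiset.mem_cons_self a s); linarith
    set q : ℝ[X] := (s.map (fun r => X - C r)).prod with hq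
    have hX : (X - C a : ℝ[X]) = X + C (-a) := by rw [C_neg, sub_eq_add_neg]
    have hXq0 : ∀ i, 0 ≤ (X * q : ℝ[X]).coeff i := by
      intro i
      rcases i with _ | i
      · simp
      · rw [coeff_X_mul]; exact ih1 i
    have hXq : TP2 (fun i => (X * q : ℝ[X]).coeff i) :=
      tp2_shift (fun i => q.coeff i) ih1 ih2 _ (by simp) (fun n => coeff_X_mul q n)
    rw [Multiset.map_cons, Multiset.prod_cons, hX]
    refine ⟨fun i => ?_, ?_⟩
    · rw [coeff_X_add_C_mul]
      exact add_nonneg (hXq0 _) (mul_nonneg ha (hXq0 _))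
    · have := tp2_mul (fun i => (X * q : ℝ[X]).coeff i) hXq0 hXq (-a) ha
      intro i j hij
      have h := this i j hij
      simp only [coeff_X_add_C_mul]
      exact h

/-- A real-rooted polynomial with nonnegative coefficients is log-concave. -/
theorem log_concave (p : ℝ[X]) (hp : p = 0 ∨ Multiset.card p.roots = p.natDegree)
    (hc : ∀ i, 0 ≤ p.coeff i) (i : ℕ) :
    p.coeff i * p.coeff (i + 2) ≤ p.coeff (i + 1) ^ 2 := by
  rcases hp with rfl | hp
  · simp
  by_cases hp0 : p = 0
  · subst hp0; simp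
  have hl : 0 < p.leadingCoeff :=
    lt_of_le_of_ne (hc _) (Ne.symm (leadingCoeff_ne_zero.mpr hp0))
  have hroots : ∀ r ∈ p.roots, r ≤ 0 := by
    intro r hr
    by_contra hneg
    push Not at hneg
    have he : p.eval r = 0 := (mem_roots hp0).mp hr
    rw [eval_eq_sum_range, Finset.sum_range_succ] at he
    have h1 : 0 ≤ ∑ x ∈ Finset.range p.natDegree, p.coeff x * r ^ x :=
      Finset.sum_nonneg (fun x _ => mul_nonneg (hc x) (pow_nonneg hneg.le _))
    have h2 : 0 < p.coeff p.natDegree * r ^ p.natDegree := mul_pos hl (pow_pos hneg _)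
    linarith
  have hprod := C_leadingCoeff_mul_prod_multiset_X_sub_C hp
  obtain ⟨h1, h2⟩ := tp2_prod p.roots hroots
  have h3 := h2 i (i + 1) (by omega)
  rw [← hprod]
  simp only [coeff_C_mul]
  have h4 : 0 ≤ p.leadingCoeff * p.leadingCoeff := mul_nonneg hl.le hl.le
  have h5 := mul_le_mul_of_nonneg_left h3 h4
  simp only at h5
  nlinarith [h5]

end Pool.Agent.helper62.SR
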